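import Pool.Agent.Y8.EP.Stm6
import Pool.Agent.Y5.G.Asm

/-! Stage EP6: the assembly (adapted from `Pool.Agent.Y5.G.Asm`). -/

open Set Filter Topology MeasureTheory

set_option autoImplicit false

namespace Pool.Agent.Y350.EP

open Pool.Agent.Y5 Pool.Agent.Y5.D Pool.Agent.Y5.E Pool.Agent.Y5.F Pool.Agent.Y5.G
open Pool.Agent.Y8.EP

theorem t_ASM6 : S_ASM6 := by
  intro hF hEX hU hDIL hCMP hOBC hDIS ν α α' δ hν hα hα1 hαα hδ
  obtain ⟨J, g, L, M, e, lam, T, V, h, hD4, ⟨D, hlam⟩, hT, hV, hV0, hen, hbl⟩ :=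
    hEX ν α hν hα hα1
  obtain ⟨N, hN, h5⟩ := hDIS J g L M e lam ν α α' δ hν hα hαα hδ h hD4
  obtain ⟨d1, d2, d3, d4, d5, d6, d7, d8, d9, d10, d11, d12, d13, d14, d15, d16, d17, d18, d19⟩ :=
    hDIL N hN
  obtain ⟨c1, c2, c3, c4, c5, c6, c7, c8⟩ := hCMP N hN
  have hOB := hOBC J g L M e N hN h
  obtain ⟨⟨hip, hcnv, hdir⟩, hcf⟩ := hF
  have hN0 : (0:ℝ) < N := by exact_mod_cast hN
  have hN1 : (1:ℝ) ≤ N := by exact_mod_cast hN
  set A : ℝ := (N : ℝ) ^ (2 * α - 1) with hA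
  set c : ℝ := (N : ℝ) ^ (2 * α) with hc
  have hA0 : 0 < A := Real.rpow_pos_of_pos hN0 _
  have hc0 : 0 < c := Real.rpow_pos_of_pos hN0 _
  have hAN : A * N = c := by
    rw [hA, hc]
    have : (2 * α) = (2 * α - 1) + 1 := by ring
    rw [this, Real.rpow_add hN0, Real.rpow_one]
    ring_nf
  set T₁ : ℝ := T / c with hT₁
  have hT₁0 : 0 < T₁ := div_pos hT hc0
  have hmem : ∀ t ∈ Ico 0 T₁, c * t ∈ Ico 0 T := by
    intro t ht
    refine ⟨mul_nonneg hc0.le ht.1, ?_⟩
    have := ht.2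
    rw [hT₁, lt_div_iff₀ hc0] at this
    linarith
  set U : ℝ → Fam := fun t k => A • dil N (V (c * t)) k with hU'
  have hrapV := csol_rap hV
  -- the fk part is orthogonal
  have hfk0 : ∀ (p : Kx N) k, Dv N k → fk N p k = 0 := by
    intro p k hk
    by_contra hne
    exact (c2 p k hne).1 hk
  have hpinl : ∀ t (a : Ix J), pair (U t) (dil N (e a)) = A * pair (V (c * t)) (e a) := by
    intro t a
    rw [hU']
    simp only
    rw [pair_smul_left, d15]
  have hpinr : ∀ t (p : Kx N), pair (U t) (fk N p) = 0 := by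
    intro t p
    rw [hU']
    simp only
    rw [pair_smul_left, d18 _ _ (hfk0 p), mul_zero]
  have hbinl : ∀ t (a : Ix J), bil (U t) (U t) (dil N (e a)) =
      A * c * bil (V (c * t)) (V (c * t)) (e a) := by
    intro t a
    rw [hU']
    simp only
    rw [bil_smul, d16]
    calc A ^ 2 * (↑N * bil (V (c * t)) (V (c * t)) (e a)) =
        A * (A * N) * bil (V (c * t)) (V (c * t)) (e a) := by ring
      _ = _ := by rw [hAN]
  have hbinr : ∀ t (p : Kx N), bil (U t) (U t) (fk N p) = 0 := by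
    intro t p
    rw [hU']
    simp only
    rw [bil_smul, d17 _ _ _ (hfk0 p), mul_zero]
  -- time scaling
  have hscale : ∀ {f : ℝ → ℝ} {f' t : ℝ}, t ∈ Ico 0 T₁ →
      HasDerivWithinAt f f' (Ico 0 T) (c * t) →
      HasDerivWithinAt (fun τ => f (c * τ)) (f' * c) (Ico 0 T₁) t := by
    intro f f' t ht hf
    have h1 : HasDerivWithinAt (fun τ : ℝ => c * τ) c (Ico 0 T₁) t := by
      have := ((hasDerivAt_id t).const_mul c).hasDerivWithinAt (s := Ico 0 T₁)
      simpa using this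
    exact HasDerivWithinAt.comp t hf h1 (fun τ hτ => hmem τ hτ)
  have hUsol : CSol (eC N e) (lamC ν α N lam) T₁ U := by
    refine ⟨fun t ht => ?_, fun m T' hT' => ?_, fun i t ht => ?_⟩
    · exact ot_smul A (d3 _ (hV.ot _ (hmem t ht)))
    · have hcT' : c * T' < T := by
        rw [hT₁, lt_div_iff₀ hc0] at hT'
        linarith
      obtain ⟨Mm, hMm⟩ := hV.rap m (c * T') hcT'
      refine ⟨A * ((N:ℝ) ^ m * max Mm 0), fun t ht k => ?_⟩
      have ht' : c * t ∈ Icc 0 (c * T') :=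
        ⟨mul_nonneg hc0.le ht.1, mul_le_mul_of_nonneg_left ht.2 hc0.le⟩
      have h1 := dil_norm hN d10 d2 d7 d9 (V (c * t)) m (max Mm 0) (le_max_right _ _)
        (fun k => (hMm _ ht' k).trans (le_max_left _ _)) k
      show ‖vec k‖ ^ m * ‖A • dil N (V (c * t)) k‖ ≤ _
      rw [norm_smul, Real.norm_eq_abs, abs_of_pos hA0]
      calc ‖vec k‖ ^ m * (A * ‖dil N (V (c * t)) k‖) = A * (‖vec k‖ ^ m * ‖dil N (V (c * t)) k‖) := by
            ring
        _ ≤ _ := mul_le_mul_of_nonneg_left h1 hA0.le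
    · rcases i with a | p
      · show HasDerivWithinAt (fun τ => pair (U τ) (dil N (e a)))
          (-(((N : ℝ) ^ (2 * α) * lam a) * pair (U t) (dil N (e a))) +
            bil (U t) (U t) (dil N (e a))) (Ico 0 T₁) t
        have h1 := hscale ht (hV.eqn a (c * t) (hmem t ht))
        have h2 := h1.const_mul A
        have h3 : HasDerivWithinAt (fun τ => pair (U τ) (dil N (e a)))
            (A * ((-(lam a * pair (V (c * t)) (e a)) + bil (V (c * t)) (V (c * t)) (e a)) * c))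
            (Ico 0 T₁) t :=
          h2.congr (fun τ _ => hpinl τ a) (hpinl t a)
        refine h3.congr_deriv ?_
        rw [hpinl, hbinl, ← hc]
        ring
      · show HasDerivWithinAt (fun τ => pair (U τ) (fk N p))
          (-((ν * (2 * Real.pi * ‖vec p.1.1‖) ^ (2 * α)) * pair (U t) (fk N p)) +
            bil (U t) (U t) (fk N p)) (Ico 0 T₁) t
        rw [hpinr, hbinr, mul_zero, neg_zero, add_zero]
        exact (hasDerivWithinAt_const t (Ico 0 T₁) (0:ℝ)).congr (fun τ _ => hpinr τ p) (hpinr t p)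
  have hUrap := csol_rap hUsol
  have heot : ∀ i, OT (eC N e i) := hOB.ot
  have hefin : ∀ i, ∃ R, ∀ k, eC N e i k ≠ 0 → ‖vec k‖ ≤ R := fun i => ⟨_, fun k hk => (hOB.fsupp i k hk).2⟩
  have herap : ∀ i, Rap (eC N e i) := by
    intro i m
    obtain ⟨R, hR⟩ := hefin i
    have hfs : {k | eC N e i k ≠ 0}.Finite :=
      (Pool.Agent.Y275.ND.finite_ball R).subset (fun k hk => hR k hk)
    have hb : ((fun k => ‖vec k‖ ^ m * ‖eC N e i k‖) '' {k | eC N e i k ≠ 0}).Finite :=
      hfs.image _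
    obtain ⟨B, hB⟩ := hb.bddAbove
    refine ⟨max B 0, fun k => ?_⟩
    by_cases hk : eC N e i k = 0
    · rw [hk, norm_zero, mul_zero]; exact le_max_right _ _
    · exact (hB ⟨k, hk, rfl⟩).trans (le_max_left _ _)
  have hipU : ∀ t ∈ Ico 0 T₁, ∀ i, ip (fieldOf (U t)) (fieldOf (eC N e i)) =
      pair (U t) (eC N e i) := fun t ht i => hip _ _ (hUsol.ot t ht) (hUrap t ht) (heot i) (herap i)
  have hfield : ∀ t y, fieldOf (U t) y = A • fieldOf (V (c * t)) ((N : ℝ) • y) := by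
    intro t y
    rw [hU']
    simp only
    rw [fieldOf_smul, d19]
  -- blow-up
  have hblU : ∀ R : ℝ, ∃ t ∈ Ico 0 T₁, ∃ y, R < ‖fieldOf (U t) y‖ := by
    intro R
    obtain ⟨t, ht, y, hy⟩ := hbl (R / A)
    refine ⟨t / c, ⟨div_nonneg ht.1 hc0.le, ?_⟩, (N:ℝ)⁻¹ • y, ?_⟩
    · rw [hT₁]
      exact div_lt_div_of_pos_right ht.2 hc0
    · rw [hfield, mul_div_cancel₀ t hc0.ne', smul_smul, mul_inv_cancel₀ hN0.ne', one_smul,
        norm_smul, Real.norm_eq_abs, abs_of_pos hA0]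
      rw [div_lt_iff₀ hA0] at hy
      linarith
  refine ⟨Ix J ⊕ Kx N, fun i => fieldOf (eC N e i), lamC ν α N lam, T₁, fun t => fieldOf (U t),
    h5, hT₁0, ?_, ?_, ?_, ?_, hblU⟩
  · -- Sol2
    refine ⟨⟨U, fun t ht => ⟨hUsol.ot t ht, rfl⟩, hUsol.rap⟩, ?_⟩
    intro i t ht
    have h1 := hUsol.eqn i t ht
    have h2 : HasDerivWithinAt (fun τ => ip (fieldOf (U τ)) (fieldOf (eC N e i)))
        (-(lamC ν α N lam i * pair (U t) (eC N e i)) + bil (U t) (U t) (eC N e i))
        (Ico 0 T₁) t := h1.congr (fun τ hτ => hipU τ hτ i) (hipU t ht i)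
    refine h2.congr_deriv ?_
    rw [hipU t ht i, hcnv _ _ (hUsol.ot t ht) (hUrap t ht) (heot i) (herap i)]
    ring
  · -- initial datum
    have h0 : (0:ℝ) ∈ Ico 0 T₁ := ⟨le_rfl, hT₁0⟩
    refine ⟨U 0, hUsol.ot 0 h0, ?_, rfl⟩
    obtain ⟨R, hR⟩ := hefin (Sum.inl (Sum.inl 0))
    refine ⟨R, fun k hk => hR k ?_⟩
    intro h1
    apply hk
    show A • dil N (V (c * 0)) k = 0
    rw [mul_zero]
    have h2 : V 0 = e (Sum.inl 0) := funext hV0
    rw [h2]
    have h3 : dil N (e (Sum.inl 0)) k = 0 := h1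
    rw [h3, smul_zero]
  · -- uniqueness
    intro T' v hT' hv hv0
    obtain ⟨V', hV', hV'b⟩ := hv.reg
    have hrap : ∀ t ∈ Ico 0 T', Rap (V' t) := by
      intro t ht m
      obtain ⟨Mb, hMb⟩ := hV'b m t ht.2
      exact ⟨Mb, hMb t ⟨ht.1, le_rfl⟩⟩
    have hipv : ∀ t ∈ Ico 0 T', ∀ i, ip (v t) (fieldOf (eC N e i)) = pair (V' t) (eC N e i) := by
      intro t ht i
      rw [(hV' t ht).2, hip _ _ (hV' t ht).1 (hrap t ht) (heot i) (herap i)]
    have hVsol : CSol (eC N e) (lamC ν α N lam) T' V' := by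
      refine ⟨fun t ht => (hV' t ht).1, hV'b, fun i t ht => ?_⟩
      have h1 := hv.eqn i t ht
      have h2 : HasDerivWithinAt (fun τ => pair (V' τ) (eC N e i))
          (-(lamC ν α N lam i * ip (v t) (fieldOf (eC N e i))) -
            cnv (v t) (fieldOf (eC N e i))) (Ico 0 T') t :=
        h1.congr (fun τ hτ => (hipv τ hτ i).symm) (hipv t ht i).symm
      refine h2.congr_deriv ?_
      rw [hipv t ht i, (hV' t ht).2, hcnv _ _ (hV' t ht).1 (hrap t ht) (heot i) (herap i)]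
      ring
    have h0' : (0:ℝ) ∈ Ico 0 T' := ⟨le_rfl, hT'⟩
    have h0 : (0:ℝ) ∈ Ico 0 T₁ := ⟨le_rfl, hT₁0⟩
    have hinit : ∀ k, V' 0 k = U 0 k := by
      intro k
      rw [← hcf _ (hV' 0 h0').1 (hrap 0 h0') k, ← hcf _ (hUsol.ot 0 h0) (hUrap 0 h0) k,
        ← (hV' 0 h0').2, hv0]
    have hlam0 : ∀ a, 0 ≤ lamC ν α N lam a := h5.nonneg
    have hlamq : ∃ (D : ℝ) (q : ℕ), ∀ a, lamC ν α N lam a ≤
        D * (Sum.elim (fun a : Ix J => 2 * N * M (gr g a)) (fun p : Kx N => 2 * ‖vec p.1.1‖)) a ^ q := by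
      obtain ⟨DL, hDL0, hDL⟩ := h.lowf
      set q : ℕ := max 3 ⌈2 * α⌉₊ with hq
      have hq3 : 3 ≤ q := le_max_left _ _
      have hqα : 2 * α ≤ q := (Nat.le_ceil _).trans (by exact_mod_cast le_max_right _ _)
      refine ⟨c * |D| * DL + ν * (2 * Real.pi) ^ (2 * α), q, ?_⟩
      have hpi := Real.pi_pos
      rintro (a | p)
      · show c * lam a ≤ _ * (2 * N * M (gr g a)) ^ q
        have hM1 := h.M1 (gr g a)
        have hne : ∃ k, e a k ≠ 0 := by
          by_contra hno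
          push Not at hno
          have h1 := (h.orth a a).1 rfl
          unfold pair at h1
          simp [hno] at h1
        obtain ⟨k, hk⟩ := hne
        have h1 := hDL a k hk
        have h2 := (h.fsupp a k hk).2
        have hb : (1:ℝ) ≤ 2 * N * M (gr g a) := by nlinarith
        have h3 : L (gr g a) ≤ DL * (2 * N * M (gr g a)) ^ q := by
          refine h1.trans (mul_le_mul_of_nonneg_left ?_ hDL0.le)
          calc ‖vec k‖ ^ 3 ≤ (2 * N * M (gr g a)) ^ 3 := by
                gcongr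
                nlinarith
            _ ≤ _ := pow_le_pow_right₀ hb hq3
        have h4 : lam a ≤ |D| * L (gr g a) := (hlam a).trans
          (mul_le_mul_of_nonneg_right (le_abs_self D) (by linarith [h.L1 (gr g a)]))
        have h5' : 0 ≤ (2 * N * M (gr g a)) ^ q := by positivity
        calc c * lam a ≤ c * (|D| * (DL * (2 * N * M (gr g a)) ^ q)) := by
              refine mul_le_mul_of_nonneg_left (h4.trans ?_) hc0.le
              exact mul_le_mul_of_nonneg_left h3 (abs_nonneg _)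
          _ = (c * |D| * DL) * (2 * N * M (gr g a)) ^ q := by ring
          _ ≤ _ := by
              apply mul_le_mul_of_nonneg_right _ h5'
              have : 0 ≤ ν * (2 * Real.pi) ^ (2 * α) := by positivity
              linarith
      · show ν * (2 * Real.pi * ‖vec p.1.1‖) ^ (2 * α) ≤ _ * (2 * ‖vec p.1.1‖) ^ q
        have h1 := c3 p
        have h2 : (‖vec p.1.1‖) ^ (2 * α) ≤ (2 * ‖vec p.1.1‖) ^ q := by
          calc (‖vec p.1.1‖) ^ (2 * α) ≤ (‖vec p.1.1‖) ^ (q : ℝ) :=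
                Real.rpow_le_rpow_of_exponent_le h1 hqα
            _ = ‖vec p.1.1‖ ^ q := Real.rpow_natCast _ _
            _ ≤ _ := by gcongr; linarith
        rw [Real.mul_rpow (by positivity) (by positivity)]
        have h5' : 0 ≤ (2 * ‖vec p.1.1‖) ^ q := by positivity
        calc ν * ((2 * Real.pi) ^ (2 * α) * ‖vec p.1.1‖ ^ (2 * α))
            ≤ ν * ((2 * Real.pi) ^ (2 * α) * (2 * ‖vec p.1.1‖) ^ q) := by gcongr
          _ = (ν * (2 * Real.pi) ^ (2 * α)) * (2 * ‖vec p.1.1‖) ^ q := by ring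
          _ ≤ _ := by
              apply mul_le_mul_of_nonneg_right _ h5'
              have : 0 ≤ c * |D| * DL := by positivity
              linarith
    have heq : ∀ t ∈ Ico 0 (min T' T₁), ∀ k, V' t k = U t k :=
      hU _ _ _ _ hOB hlam0 hlamq (min T' T₁) V' U (csol_mono hVsol (min_le_left _ _))
        (csol_mono hUsol (min_le_right _ _)) hinit
    have hle : T' ≤ T₁ := by
      by_contra hlt
      push Not at hlt
      obtain ⟨M0, hM0⟩ := hV'b 0 T₁ hlt
      obtain ⟨M6, hM6⟩ := hV'b 6 T₁ hlt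
      obtain ⟨t, ht, y, hy⟩ := hblU (∑' k : Z3, 2 ^ 6 * (M0 + M6) * ((1 + |(k 0 : ℝ)|)⁻¹ ^ 2 *
        ((1 + |(k 1 : ℝ)|)⁻¹ ^ 2 * (1 + |(k 2 : ℝ)|)⁻¹ ^ 2)))
      have ht' : t ∈ Icc 0 T₁ := ⟨ht.1, ht.2.le⟩
      obtain ⟨s1, s2⟩ := l1_of_bdd (hM0 t ht') (hM6 t ht')
      have h1 : V' t = U t := funext (heq t ⟨ht.1, by rw [min_eq_right hlt.le]; exact ht.2⟩)
      rw [← h1] at hy
      have h2 := Pool.Agent.Y274.NE.field_le (V' t) s1 y
      linarith
    refine ⟨hle, fun t ht => ?_⟩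
    rw [(hV' t ht).2]
    have h1 : V' t = U t := funext (heq t ⟨ht.1, by rw [min_eq_left hle]; exact ht.2⟩)
    rw [h1]
  · -- energy identity
    intro t ht
    have hpUU : ∀ τ, pair (U τ) (U τ) = A ^ 2 * pair (V (c * τ)) (V (c * τ)) := by
      intro τ
      rw [hU']
      simp only
      rw [pair_smul_left, pair_smul_right, d15]
      ring
    have h1 := (hscale ht (hen (c * t) (hmem t ht))).const_mul (A ^ 2)
    have h2 : HasDerivWithinAt (fun τ => ip (fieldOf (U τ)) (fieldOf (U τ)))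
        (A ^ 2 * (-(2 * ∑' a, lam a * pair (V (c * t)) (e a) ^ 2) * c)) (Ico 0 T₁) t := by
      refine h1.congr (fun τ hτ => ?_) ?_
      · rw [hip _ _ (hUsol.ot τ hτ) (hUrap τ hτ) (hUsol.ot τ hτ) (hUrap τ hτ), hpUU]
      · rw [hip _ _ (hUsol.ot t ht) (hUrap t ht) (hUsol.ot t ht) (hUrap t ht), hpUU]
    refine h2.congr_deriv ?_
    have h3 : ∑' i, lamC ν α N lam i * ip (fieldOf (U t)) (fieldOf (eC N e i)) ^ 2 =
        ∑' a, c * A ^ 2 * (lam a * pair (V (c * t)) (e a) ^ 2) := by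
      have h4 : Function.support (fun i => lamC ν α N lam i *
          ip (fieldOf (U t)) (fieldOf (eC N e i)) ^ 2) ⊆ Set.range (Sum.inl : Ix J → Ix J ⊕ Kx N) := by
        rintro (a | p) hi
        · exact ⟨a, rfl⟩
        · exfalso
          apply hi
          show lamC ν α N lam (Sum.inr p) * ip (fieldOf (U t)) (fieldOf (eC N e (Sum.inr p))) ^ 2 = 0
          rw [hipU t ht]
          have : pair (U t) (eC N e (Sum.inr p)) = 0 := hpinr t p
          rw [this]; ring
      rw [← Function.Injective.tsum_eq Sum.inl_injective h4]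
      apply tsum_congr
      intro a
      rw [hipU t ht]
      have h6 : pair (U t) (eC N e (Sum.inl a)) = A * pair (V (c * t)) (e a) := hpinl t a
      have h7 : lamC ν α N lam (Sum.inl a) = c * lam a := rfl
      rw [h6, h7]
      ring
    rw [h3, tsum_mul_left]
    ring

end Pool.Agent.Y350.EP
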