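import Pool.Agent.Y8.EP.Stm6
import Pool.Agent.Y319.NSG.Dis

/-! Stage EP6: the linear dissipation of the combined system (adapted from
`Pool.Agent.Y319.NSG.Dis`). -/

open Set Filter Topology MeasureTheory

set_option autoImplicit false

namespace Pool.Agent.Y350.EP

open Pool.Agent.Y5 Pool.Agent.Y5.D Pool.Agent.Y5.E Pool.Agent.Y5.F Pool.Agent.Y5.G
  Pool.Agent.Y274.NE
open Pool.Agent.Y8.EP
open Pool.Agent.Y319.NSG (nd nd_summable nd_nonneg vec_neg' split pair_sq fk_sum parseval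
  rap_of_supp exists_N sob_nonneg one_le_vec dv_neg Wd Wd_ot Wd_rap Wd_res pair_smul_left Wd_fk)
open Pool.Agent.Y275.ND (finite_ball syn pair_comm)

lemma sob_mono (hF : S_FLD2) {V : Fam} (oV : OT V) (rV : Rap V) {s s' : ℝ} (hs : 0 < s)
    (h : s ≤ s') : sob s (fieldOf V) ≤ sob s' (fieldOf V) := by
  rw [sob_eq hF s V oV rV, sob_eq hF s' V oV rV]
  refine (sum_w rV (2 * s) (by linarith)).tsum_le_tsum (fun k => ?_)
    (sum_w rV (2 * s') (by linarith))
  by_cases hk : k = 0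
  · subst hk
    have h0 : vec (0 : Z3) = 0 := by
      ext i
      simp [vec]
    rw [h0, norm_zero, mul_zero, Real.zero_rpow (by linarith), Real.zero_rpow (by linarith)]
  · have h3 : 1 ≤ ‖vec k‖ := one_le_vec hk
    have h4 : 1 ≤ 2 * Real.pi * ‖vec k‖ := by
      have := Real.pi_gt_three
      nlinarith
    exact mul_le_mul_of_nonneg_right (Real.rpow_le_rpow_of_exponent_le h4 (by linarith))
      (by positivity)

theorem t_DISA6 : S_DISA6 := by
  intro hF hDil hCmp hObc J g L M e lam ν α α' δ hν hα hαα hδ hB hD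
  obtain ⟨Cu, hCu⟩ := hD.up
  obtain ⟨N, hN, hNδ⟩ := exists_N |Cu| δ (2 * α' - 2 * α) hδ (by linarith)
  refine ⟨N, hN, ?_⟩
  have hN1 : (1 : ℝ) ≤ N := by exact_mod_cast hN
  have hN0 : (0 : ℝ) < N := by linarith
  have hOB := hObc J g L M e N hN hB
  obtain ⟨-, -, -, d4, -, d6, -, -, -, -, -, -, -, d14, -⟩ := hDil N hN
  have hπ := Real.pi_pos
  have rapE : ∀ i, Rap (eC N e i) := fun i => rap_of_supp _ (fun k hk => (hOB.fsupp i k hk).2)
  have hip : ∀ V, OT V → Rap V → ∀ i, ip (fieldOf V) (fieldOf (eC N e i)) = pair V (eC N e i) :=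
    fun V hV rV i => hF.1.1 _ _ hV rV (hOB.ot i) (rapE i)
  have hipB : ∀ V, OT V → Rap V → ∀ a, ip (fieldOf V) (fieldOf (e a)) = pair V (e a) :=
    fun V hV rV a => hF.1.1 _ _ hV rV (hB.ot a) (rap_e hB a)
  have hil : ∀ V a, pair V (eC N e (Sum.inl a)) = pair (res N V) (e a) := fun V a => d14 V (e a)
  have hlam : ∀ i, 0 ≤ lamC ν α N lam i := by
    rintro (a | p)
    · exact mul_nonneg (by positivity) (hD.nonneg a)
    · exact mul_nonneg hν.le (by positivity)
  -- sums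
  have hsum : ∀ V, OT V → Rap V → HasSum (fun i => lamC ν α N lam i * pair V (eC N e i) ^ 2)
      ((N : ℝ) ^ (2 * α) * ∑' a, lam a * pair (res N V) (e a) ^ 2 + ν * nd N (2 * α) V) := by
    intro V hV rV
    have h1 := (hD.low _ ⟨res N V, d4 V hV, d6 V rV, rfl⟩).1
    simp only [hipB _ (d4 V hV) (d6 V rV)] at h1
    refine HasSum.sum ?_ ?_
    · have h2 := h1.hasSum.mul_left ((N : ℝ) ^ (2 * α))
      have h3 : ((fun i => lamC ν α N lam i * pair V (eC N e i) ^ 2) ∘ Sum.inl) =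
          fun a => (N : ℝ) ^ (2 * α) * (lam a * pair (res N V) (e a) ^ 2) := by
        funext a
        simp only [Function.comp, lamC, Sum.elim_inl, hil]
        ring
      rw [h3]
      exact h2
    · exact fk_sum hCmp hN hV rV ν (2 * α) (by linarith)
  have hsob : ∀ V, OT V → Rap V → ∀ s : ℝ, 0 ≤ s → sob s (fieldOf V) =
      (N : ℝ) ^ (2 * s) * sob s (fieldOf (res N V)) + nd N (2 * s) V := by
    intro V hV rV s hs
    rw [sob_eq hF s V hV rV, sob_eq hF s _ (d4 V hV) (d6 V rV), split hDil hN rV (2 * s)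
      (by linarith)]
  refine ⟨?_, hlam, ?_, ?_, ?_, ?_, ?_, ?_, ?_⟩
  · intro i
    exact ⟨eC N e i, hOB.ot i, ⟨_, fun k hk => (hOB.fsupp i k hk).2⟩, rfl⟩
  · intro i j
    show (i = j → ip (fieldOf (eC N e i)) (fieldOf (eC N e j)) = 1) ∧
      (i ≠ j → ip (fieldOf (eC N e i)) (fieldOf (eC N e j)) = 0)
    rw [hip _ (hOB.ot i) (rapE i)]
    exact hOB.orth i j
  · -- Parseval
    rintro v ⟨V, hV, rV, rfl⟩
    rw [hF.1.1 V V hV rV hV rV]
    simp only [hip V hV rV]
    have h1 : HasSum ((fun i => pair V (eC N e i) ^ 2) ∘ Sum.inl)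
        (pair (res N V) (res N V)) := by
      have h3 : ((fun i => pair V (eC N e i) ^ 2) ∘ Sum.inl) =
          fun a => pair (res N V) (e a) ^ 2 := by
        funext a
        simp only [Function.comp, hil]
      rw [h3]
      exact parseval hB (d4 V hV) (d6 V rV)
    have h2 : HasSum ((fun i => pair V (eC N e i) ^ 2) ∘ Sum.inr) (nd N 0 V) := by
      have h3 := fk_sum hCmp hN hV rV 1 0 le_rfl
      simp only [Real.rpow_zero, one_mul] at h3
      exact h3
    have h3 := h1.sum h2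
    have h4 : pair V V = pair (res N V) (res N V) + nd N 0 V := by
      rw [pair_sq, pair_sq, split hDil hN rV 0 le_rfl, Real.rpow_zero, one_mul]
    rw [h4]
    exact h3
  · rintro v ⟨V, hV, rV, rfl⟩
    simp only [hip V hV rV]
    exact (hsum V hV rV).summable
  · -- lower bound
    rintro v ⟨V, hV, rV, rfl⟩
    simp only [hip V hV rV]
    rw [(hsum V hV rV).tsum_eq, hsob V hV rV α (by linarith)]
    have h1 := (hD.low _ ⟨res N V, d4 V hV, d6 V rV, rfl⟩).2
    simp only [hipB _ (d4 V hV) (d6 V rV)] at h1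
    have h2 : 0 ≤ (N : ℝ) ^ (2 * α) := by positivity
    nlinarith [mul_le_mul_of_nonneg_left h1 h2]
  · -- upper bound
    rintro v ⟨V, hV, rV, rfl⟩
    simp only [hip V hV rV]
    rw [(hsum V hV rV).tsum_eq, hsob V hV rV α (by linarith), hsob V hV rV α' (by linarith)]
    have h1 := hCu _ ⟨res N V, d4 V hV, d6 V rV, rfl⟩
    simp only [hipB _ (d4 V hV) (d6 V rV)] at h1
    have h2 : 0 ≤ (N : ℝ) ^ (2 * α) := by positivity
    have h3 : 0 ≤ (N : ℝ) ^ (2 * α') := by positivity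
    have h4 := sob_nonneg α (fieldOf (res N V))
    have h5 := sob_nonneg α' (fieldOf (res N V))
    have h6 := nd_nonneg N (2 * α') V
    have h7 : (N : ℝ) ^ (2 * α) = (N : ℝ) ^ (-(2 * α' - 2 * α)) * (N : ℝ) ^ (2 * α') := by
      rw [← Real.rpow_add hN0]
      congr 1
      ring
    have h0 : Cu * sob α (fieldOf (res N V)) ≤ |Cu| * sob α' (fieldOf (res N V)) :=
      (mul_le_mul_of_nonneg_right (le_abs_self Cu) h4).trans
        (mul_le_mul_of_nonneg_left (sob_mono hF (d4 V hV) (d6 V rV) (by linarith) hαα.le)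
          (abs_nonneg Cu))
    have h8 : (N : ℝ) ^ (2 * α) * (|Cu| * sob α' (fieldOf (res N V))) ≤
        δ * ((N : ℝ) ^ (2 * α') * sob α' (fieldOf (res N V))) := by
      rw [h7]
      calc (N : ℝ) ^ (-(2 * α' - 2 * α)) * (N : ℝ) ^ (2 * α') *
            (|Cu| * sob α' (fieldOf (res N V))) =
          (|Cu| * (N : ℝ) ^ (-(2 * α' - 2 * α))) *
            ((N : ℝ) ^ (2 * α') * sob α' (fieldOf (res N V))) := by ring
        _ ≤ _ := mul_le_mul_of_nonneg_right hNδ (mul_nonneg h3 h5)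
    have h9 := mul_le_mul_of_nonneg_left (h1.trans h0) h2
    have h10 : 0 ≤ ν * ((N : ℝ) ^ (2 * α) * sob α (fieldOf (res N V))) := by positivity
    have h11 : 0 ≤ δ * nd N (2 * α') V := by positivity
    linarith [h8, h9, h10, h11, mul_add ν ((N : ℝ) ^ (2 * α) * sob α (fieldOf (res N V)))
      (nd N (2 * α) V), mul_add δ ((N : ℝ) ^ (2 * α') * sob α' (fieldOf (res N V)))
      (nd N (2 * α') V)]
  · -- comparison with `(-Δ)^α`
    refine ⟨|Cu| + ν, ?_⟩
    rintro v ⟨V, hV, rV, rfl⟩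
    simp only [hip V hV rV]
    rw [(hsum V hV rV).tsum_eq, hsob V hV rV α (by linarith)]
    have h1 := hCu _ ⟨res N V, d4 V hV, d6 V rV, rfl⟩
    simp only [hipB _ (d4 V hV) (d6 V rV)] at h1
    have h2 : 0 ≤ (N : ℝ) ^ (2 * α) := by positivity
    have h4 := sob_nonneg α (fieldOf (res N V))
    have h6 := nd_nonneg N (2 * α) V
    have h8 := mul_le_mul_of_nonneg_left
      (h1.trans (mul_le_mul_of_nonneg_right (le_abs_self Cu) h4)) h2
    have h9 : 0 ≤ |Cu| * nd N (2 * α) V := mul_nonneg (abs_nonneg _) h6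
    have h10 : 0 ≤ ν * ((N : ℝ) ^ (2 * α) * sob α (fieldOf (res N V))) :=
      mul_nonneg hν.le (mul_nonneg h2 h4)
    calc (N : ℝ) ^ (2 * α) * (∑' a, lam a * pair (res N V) (e a) ^ 2) + ν * nd N (2 * α) V ≤
        (N : ℝ) ^ (2 * α) * (|Cu| * sob α (fieldOf (res N V))) + ν * nd N (2 * α) V := by
          linarith
      _ ≤ (|Cu| + ν) * ((N : ℝ) ^ (2 * α) * sob α (fieldOf (res N V)) + nd N (2 * α) V) := by
          have e1 : (|Cu| + ν) * ((N : ℝ) ^ (2 * α) * sob α (fieldOf (res N V)) +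
              nd N (2 * α) V) = (N : ℝ) ^ (2 * α) * (|Cu| * sob α (fieldOf (res N V))) +
              |Cu| * nd N (2 * α) V + ν * ((N : ℝ) ^ (2 * α) * sob α (fieldOf (res N V))) +
              ν * nd N (2 * α) V := by ring
          rw [e1]
          linarith
  · -- order
    intro m
    obtain ⟨C0, hC0⟩ := hD.ord m
    obtain ⟨K, hK⟩ : ∃ K : ℝ, K = (N : ℝ) ^ (2 * (m : ℝ)) * ((N : ℝ) ^ (2 * α)) ^ 2 := ⟨_, rfl⟩
    have hK0 : 0 ≤ K := by rw [hK]; positivity
    refine ⟨|C0| * K + ν ^ 2, ?_⟩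
    rintro v ⟨V, hV, rV, rfl⟩
    obtain ⟨w0, ⟨W0, oW, rW, rfl⟩, hw1, hw2⟩ := hC0 _ ⟨res N V, d4 V hV, d6 V rV, rfl⟩
    simp only [hipB _ oW rW, hipB _ (d4 V hV) (d6 V rV)] at hw1
    have oWd := Wd_ot hDil hN ν α oW hV
    have rWd := Wd_rap hDil hN ν α (by linarith) rW rV
    refine ⟨fieldOf (Wd N ν α W0 V), ⟨_, oWd, rWd, rfl⟩, ?_, ?_⟩
    · intro i
      rw [hip _ oWd rWd, hip _ hV rV]
      rcases i with a | p
      · rw [hil, hil, Wd_res hDil hN, pair_smul_left, hw1]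
        simp only [lamC, Sum.elim_inl]
        ring
      · exact Wd_fk hCmp hN ν α W0 V p
    · have hm : (0 : ℝ) ≤ m := Nat.cast_nonneg m
      rw [hsob _ oWd rWd m hm, hsob V hV rV (m + 2 * α) (by linarith)]
      -- the divisible part
      have e1 : sob m (fieldOf (res N (Wd N ν α W0 V))) =
          ((N : ℝ) ^ (2 * α)) ^ 2 * sob m (fieldOf W0) := by
        rw [sob_eq hF m _ (d4 _ oWd) (d6 _ rWd), sob_eq hF m _ oW rW, Wd_res hDil hN,
          ← tsum_mul_left]
        refine tsum_congr fun k => ?_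
        rw [norm_smul, mul_pow, Real.norm_eq_abs, sq_abs]
        ring
      -- the other part
      have e2 : nd N (2 * m) (Wd N ν α W0 V) ≤ ν ^ 2 * nd N (2 * (m + 2 * α)) V := by
        classical
        unfold nd
        rw [← tsum_mul_left]
        refine (nd_summable rWd N (2 * m) (by linarith)).tsum_le_tsum (fun k => ?_)
          ((nd_summable rV N (2 * (m + 2 * α)) (by linarith)).mul_left _)
        by_cases hk : Dv N k
        · rw [if_pos hk, if_pos hk, mul_zero]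
        · rw [if_neg hk, if_neg hk]
          unfold Wd
          rw [if_neg hk, norm_smul, mul_pow, Real.norm_eq_abs, sq_abs]
          have hk0 : k ≠ 0 := by
            rintro rfl
            exact hk (fun i => by simp)
          have h3 : 1 ≤ ‖vec k‖ := one_le_vec hk0
          have h4 : 1 ≤ 2 * Real.pi * ‖vec k‖ := by
            have := Real.pi_gt_three
            nlinarith
          have h5 : (0 : ℝ) < 2 * Real.pi * ‖vec k‖ := by linarith
          have h6 : (2 * Real.pi * ‖vec k‖) ^ (2 * (m : ℝ)) *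
              ((2 * Real.pi * ‖vec k‖) ^ (2 * α)) ^ 2 ≤
              (2 * Real.pi * ‖vec k‖) ^ (2 * ((m : ℝ) + 2 * α)) := by
            rw [sq, ← Real.rpow_add h5, ← Real.rpow_add h5]
            exact Real.rpow_le_rpow_of_exponent_le h4 (by linarith)
          calc (2 * Real.pi * ‖vec k‖) ^ (2 * (m : ℝ)) *
                ((ν * (2 * Real.pi * ‖vec k‖) ^ (2 * α)) ^ 2 * ‖V k‖ ^ 2) =
              ν ^ 2 * (((2 * Real.pi * ‖vec k‖) ^ (2 * (m : ℝ)) *
                ((2 * Real.pi * ‖vec k‖) ^ (2 * α)) ^ 2) * ‖V k‖ ^ 2) := by ring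
            _ ≤ _ := by gcongr
      have h1 := sob_nonneg ((m : ℝ) + 2 * α) (fieldOf (res N V))
      have h2 := nd_nonneg N (2 * ((m : ℝ) + 2 * α)) V
      have h3 : 1 ≤ (N : ℝ) ^ (2 * ((m : ℝ) + 2 * α)) :=
        Real.one_le_rpow hN1 (by linarith)
      have h4 : sob m (fieldOf W0) ≤ |C0| * sob ((m : ℝ) + 2 * α) (fieldOf (res N V)) :=
        hw2.trans (mul_le_mul_of_nonneg_right (le_abs_self C0) h1)
      have h5 : sob ((m : ℝ) + 2 * α) (fieldOf (res N V)) ≤
          (N : ℝ) ^ (2 * ((m : ℝ) + 2 * α)) * sob ((m : ℝ) + 2 * α) (fieldOf (res N V)) :=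
        le_mul_of_one_le_left h1 h3
      rw [e1]
      obtain ⟨X, hX⟩ : ∃ X, X = (N : ℝ) ^ (2 * ((m : ℝ) + 2 * α)) *
        sob ((m : ℝ) + 2 * α) (fieldOf (res N V)) := ⟨_, rfl⟩
      obtain ⟨Y, hY⟩ : ∃ Y, Y = nd N (2 * ((m : ℝ) + 2 * α)) V := ⟨_, rfl⟩
      rw [← hX] at h5 ⊢
      rw [← hY] at e2 h2 ⊢
      have hX0 : 0 ≤ X := h1.trans h5
      have h6 : (N : ℝ) ^ (2 * (m : ℝ)) * (((N : ℝ) ^ (2 * α)) ^ 2 * sob m (fieldOf W0)) ≤
          |C0| * K * X := by
        calc (N : ℝ) ^ (2 * (m : ℝ)) * (((N : ℝ) ^ (2 * α)) ^ 2 * sob m (fieldOf W0)) =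
            K * sob m (fieldOf W0) := by rw [hK]; ring
          _ ≤ K * (|C0| * X) := by
            refine mul_le_mul_of_nonneg_left (h4.trans ?_) hK0
            exact mul_le_mul_of_nonneg_left h5 (abs_nonneg _)
          _ = _ := by ring
      have h7 : 0 ≤ |C0| * K * Y := by positivity
      have h8 : 0 ≤ ν ^ 2 * X := by positivity
      have h9 : (|C0| * K + ν ^ 2) * (X + Y) =
          |C0| * K * X + |C0| * K * Y + (ν ^ 2 * X + ν ^ 2 * Y) := by ring
      rw [h9]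
      linarith

end Pool.Agent.Y350.EP
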